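import Pool.Agent.Lib.MP_1e46c9_co.Defs

open Set Module

namespace Pool.Agent.Lib.MP_1e46c9_co

section Rep
variable {ι : Type} {F : Type} [AddCommGroup F] [Module ℝ F]

/-- Every `p i` is strictly maximised by some linear functional. -/
def Sharp (p : ι → F) : Prop :=
  ∀ i, ∃ l : F →ₗ[ℝ] ℝ, ∀ j, j ≠ i → l (p j) < l (p i)

/-- There is a functional whose maximum over the family is attained exactly at `i` and `j`. -/
def EdgeAt (p : ι → F) (i j : ι) : Prop :=
  ∃ l : F →ₗ[ℝ] ℝ, l (p i) = l (p j) ∧ ∀ m, m ≠ i → m ≠ j → l (p m) < l (p i)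

/-- The family `p` represents the graph `G`. -/
def Rep (G : SimpleGraph ι) (p : ι → F) : Prop :=
  Sharp p ∧ ∀ i j, i ≠ j → (G.Adj i j ↔ EdgeAt p i j)

theorem Sharp.injective {p : ι → F} (h : Sharp p) : Function.Injective p := by
  intro i j hij
  by_contra hne
  obtain ⟨l, hl⟩ := h i
  have := hl j (Ne.symm hne)
  rw [hij] at this
  exact lt_irrefl _ this

theorem mem_hull_range [Fintype ι] (p : ι → F) (x : F) :
    x ∈ convexHull ℝ (range p) ↔
      ∃ w : ι → ℝ, (∀ i, 0 ≤ w i) ∧ ∑ i, w i = 1 ∧ ∑ i, w i • p i = x := by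
  constructor
  · intro hx
    have hconv : Convex ℝ {x : F | ∃ w : ι → ℝ, (∀ i, 0 ≤ w i) ∧ ∑ i, w i = 1 ∧
        ∑ i, w i • p i = x} := by
      rintro x ⟨w, hw0, hw1, rfl⟩ y ⟨v, hv0, hv1, rfl⟩ a b ha hb hab
      refine ⟨fun i => a * w i + b * v i, fun i => ?_, ?_, ?_⟩
      · have := hw0 i; have := hv0 i; positivity
      · rw [Finset.sum_add_distrib, ← Finset.mul_sum, ← Finset.mul_sum, hw1, hv1]; linarith
      · simp only [add_smul, mul_smul, Finset.sum_add_distrib, Finset.smul_sum]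
    refine convexHull_min ?_ hconv hx
    rintro _ ⟨i, rfl⟩
    classical
    refine ⟨fun j => if j = i then 1 else 0, fun j => ?_, ?_, ?_⟩
    · dsimp; split_ifs <;> norm_num
    · simp
    · simp
  · rintro ⟨w, hw0, hw1, rfl⟩
    exact (convex_convexHull ℝ _).sum_mem (fun i _ => hw0 i) hw1
      (fun i _ => subset_convexHull ℝ _ (mem_range_self i))

theorem weights_face [Fintype ι] {p : ι → F} {l : F →ₗ[ℝ] ℝ} {c : ℝ} (hle : ∀ i, l (p i) ≤ c)
    {w : ι → ℝ} (hw0 : ∀ i, 0 ≤ w i) (hw1 : ∑ i, w i = 1) (hx : l (∑ i, w i • p i) = c)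
    (i : ι) (hi : l (p i) < c) : w i = 0 := by
  have h1 : ∑ i, w i * (c - l (p i)) = 0 := by
    have : l (∑ i, w i • p i) = ∑ i, w i * l (p i) := by
      rw [map_sum]; simp
    rw [this] at hx
    simp only [mul_sub, Finset.sum_sub_distrib, ← Finset.sum_mul, hw1, hx]
    ring
  have h2 : ∀ j ∈ Finset.univ, 0 ≤ w j * (c - l (p j)) := fun j _ =>
    mul_nonneg (hw0 j) (sub_nonneg.2 (hle j))
  have h3 := (Finset.sum_eq_zero_iff_of_nonneg h2).1 h1 i (Finset.mem_univ i)
  rcases mul_eq_zero.1 h3 with h | h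
  · exact h
  · linarith

theorem le_of_mem_hull [Fintype ι] {p : ι → F} {l : F →ₗ[ℝ] ℝ} {c : ℝ} (hle : ∀ i, l (p i) ≤ c)
    {x : F} (hx : x ∈ convexHull ℝ (range p)) : l x ≤ c := by
  obtain ⟨w, hw0, hw1, rfl⟩ := (mem_hull_range p x).1 hx
  have : l (∑ i, w i • p i) = ∑ i, w i * l (p i) := by rw [map_sum]; simp
  rw [this]
  calc ∑ i, w i * l (p i) ≤ ∑ i, w i * c :=
        Finset.sum_le_sum fun i _ => mul_le_mul_of_nonneg_left (hle i) (hw0 i)
    _ = c := by rw [← Finset.sum_mul, hw1, one_mul]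

theorem eq_of_max_one [Fintype ι] {p : ι → F} {l : F →ₗ[ℝ] ℝ} {i : ι}
    (hl : ∀ j, j ≠ i → l (p j) < l (p i)) {x : F} (hx : x ∈ convexHull ℝ (range p))
    (hlx : l x = l (p i)) : x = p i := by
  obtain ⟨w, hw0, hw1, rfl⟩ := (mem_hull_range p x).1 hx
  have hle : ∀ j, l (p j) ≤ l (p i) := fun j => by
    by_cases h : j = i
    · rw [h]
    · exact (hl j h).le
  have hz : ∀ j, j ≠ i → w j = 0 := fun j hj => weights_face hle hw0 hw1 hlx j (hl j hj)
  have hwi : w i = 1 := by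
    rw [← hw1, Finset.sum_eq_single i (fun j _ hj => hz j hj) (fun h => absurd (Finset.mem_univ i) h)]
  rw [Finset.sum_eq_single i (fun j _ hj => by rw [hz j hj, zero_smul])
    (fun h => absurd (Finset.mem_univ i) h), hwi, one_smul]

theorem mem_segment_of_max_two [Fintype ι] {p : ι → F} {l : F →ₗ[ℝ] ℝ} {i j : ι} (hij : i ≠ j)
    (he : l (p i) = l (p j))
    (hl : ∀ m, m ≠ i → m ≠ j → l (p m) < l (p i)) {x : F} (hx : x ∈ convexHull ℝ (range p))
    (hlx : l x = l (p i)) : x ∈ segment ℝ (p i) (p j) := by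
  classical
  obtain ⟨w, hw0, hw1, rfl⟩ := (mem_hull_range p x).1 hx
  have hle : ∀ m, l (p m) ≤ l (p i) := fun m => by
    by_cases h : m = i
    · rw [h]
    · by_cases h' : m = j
      · rw [h', he]
      · exact (hl m h h').le
  have hz : ∀ m, m ≠ i → m ≠ j → w m = 0 := fun m h h' =>
    weights_face hle hw0 hw1 hlx m (hl m h h')
  have hsum : ∀ {M : Type} [AddCommMonoid M] (f : ι → M),
      (∀ m, m ≠ i → m ≠ j → f m = 0) → ∑ m, f m = f i + f j := by
    intro M _ f hf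
    rw [← Finset.sum_pair hij]
    symm
    apply Finset.sum_subset (Finset.subset_univ _)
    intro m _ hm
    simp only [Finset.mem_insert, Finset.mem_singleton, not_or] at hm
    exact hf m hm.1 hm.2
  rw [hsum w hz] at hw1
  refine ⟨w i, w j, hw0 i, hw0 j, hw1, ?_⟩
  rw [hsum (fun m => w m • p m) (fun m h h' => by simp only [hz m h h', zero_smul])]

end Rep

end Pool.Agent.Lib.MP_1e46c9_co
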