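import Pool.Agent.Lib.MP_1e46c9_co.Poly

open Set Module

namespace Pool.Agent.Lib.MP_1e46c9_co

variable {ι κ : Type}

/-- The graph obtained from `G` by adding one vertex adjacent to all others. -/
def cone (G : SimpleGraph ι) : SimpleGraph (Option ι) where
  Adj x y := match x, y with
    | some i, some j => G.Adj i j
    | none, some _ => True
    | some _, none => True
    | none, none => False
  symm := ⟨fun x y h => by
    cases x <;> cases y
    · exact h
    · trivial
    · trivial
    · exact G.symm.symm _ _ h⟩
  loopless := ⟨fun x h => by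
    cases x
    · exact h
    · exact G.loopless.irrefl _ h⟩

@[simp] theorem cone_some_some (G : SimpleGraph ι) (i j : ι) :
    (cone G).Adj (some i) (some j) ↔ G.Adj i j := Iff.rfl
@[simp] theorem cone_none_some (G : SimpleGraph ι) (i : ι) :
    (cone G).Adj none (some i) ↔ True := Iff.rfl
@[simp] theorem cone_some_none (G : SimpleGraph ι) (i : ι) :
    (cone G).Adj (some i) none ↔ True := Iff.rfl
@[simp] theorem cone_none_none (G : SimpleGraph ι) :
    (cone G).Adj none none ↔ False := Iff.rfl

/-- Cones over isomorphic graphs are isomorphic. -/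
def coneIso {G : SimpleGraph ι} {H : SimpleGraph κ} (e : G ≃g H) : cone G ≃g cone H where
  toEquiv := Equiv.optionCongr e.toEquiv
  map_rel_iff' := by
    intro x y
    cases x <;> cases y
    · exact Iff.rfl
    · exact Iff.rfl
    · exact Iff.rfl
    · exact e.map_rel_iff'

section general
variable {F F' : Type} [AddCommGroup F] [Module ℝ F] [AddCommGroup F'] [Module ℝ F']

theorem EdgeAt.symm {p : ι → F} {i j : ι} (h : EdgeAt p i j) : EdgeAt p j i := by
  obtain ⟨l, h1, h2⟩ := h
  exact ⟨l, h1.symm, fun m hj hi => by rw [← h1]; exact h2 m hi hj⟩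

theorem Rep.comp_equiv {G : SimpleGraph ι} {H : SimpleGraph κ} {p : ι → F} (h : Rep G p)
    (e : G ≃g H) : Rep H (p ∘ e.symm) := by
  constructor
  · intro i
    obtain ⟨l, hl⟩ := h.1 (e.symm i)
    refine ⟨l, fun j hj => hl _ (fun h' => hj (e.symm.injective h'))⟩
  · intro i j hij
    have h1 : e.symm i ≠ e.symm j := fun h' => hij (e.symm.injective h')
    have h2 : H.Adj i j ↔ G.Adj (e.symm i) (e.symm j) := by
      rw [← e.map_rel_iff']
      simp
    rw [h2, h.2 _ _ h1]
    constructor
    · rintro ⟨l, h3, h4⟩
      exact ⟨l, h3, fun m hmi hmj => h4 _ (fun h' => hmi (e.symm.injective h'))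
        (fun h' => hmj (e.symm.injective h'))⟩
    · rintro ⟨l, h3, h4⟩
      refine ⟨l, h3, fun m hmi hmj => ?_⟩
      have := h4 (e m) (fun h' => hmi (by rw [← h']; simp)) (fun h' => hmj (by rw [← h']; simp))
      simpa using this

theorem Rep.map {G : SimpleGraph ι} {p : ι → F} (h : Rep G p) (e : F ≃ₗ[ℝ] F') :
    Rep G (e ∘ p) := by
  constructor
  · intro i
    obtain ⟨l, hl⟩ := h.1 i
    exact ⟨l ∘ₗ e.symm.toLinearMap, fun j hj => by simpa using hl j hj⟩
  · intro i j hij
    rw [h.2 i j hij]
    constructor
    · rintro ⟨l, h3, h4⟩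
      exact ⟨l ∘ₗ e.symm.toLinearMap, by simpa using h3, fun m hi hj => by simpa using h4 m hi hj⟩
    · rintro ⟨l, h3, h4⟩
      exact ⟨l ∘ₗ e.toLinearMap, by simpa using h3, fun m hi hj => by simpa using h4 m hi hj⟩

theorem finrank_vectorSpan_map (e : F →ₗ[ℝ] F') (he : Function.Injective e) (s : Set F) :
    finrank ℝ (vectorSpan ℝ (e '' s)) = finrank ℝ (vectorSpan ℝ s) := by
  have h1 : vectorSpan ℝ (e '' s) = (vectorSpan ℝ s).map e := by
    have := AffineMap.map_vectorSpan e.toAffineMap (s := s)
    simpa using this.symm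
  rw [h1]
  exact (LinearEquiv.finrank_eq (Submodule.equivMapOfInjective e he _)).symm

theorem vectorSpan_insert' {s : Set F} {p z : F} (hp : p ∈ s) :
    vectorSpan ℝ (insert z s) = Submodule.span ℝ {z - p} ⊔ vectorSpan ℝ s := by
  have h1 : vectorSpan ℝ (insert z s) =
      (affineSpan ℝ (insert z (affineSpan ℝ s : Set F))).direction := by
    rw [affineSpan_insert_affineSpan, direction_affineSpan]
  rw [h1, AffineSubspace.direction_affineSpan_insert (subset_affineSpan ℝ s hp), direction_affineSpan,
    vsub_eq_sub]

theorem finrank_insert_of_notMem [FiniteDimensional ℝ F] {s : Set F} (hs : s.Nonempty) {z : F}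
    (hz : z ∉ affineSpan ℝ s) :
    finrank ℝ (vectorSpan ℝ (insert z s)) = finrank ℝ (vectorSpan ℝ s) + 1 := by
  obtain ⟨p, hp⟩ := hs
  have hzp : z - p ∉ vectorSpan ℝ s := by
    intro h
    apply hz
    have h2 : z = (z - p) +ᵥ p := by simp
    rw [h2]
    exact vadd_mem_affineSpan_of_mem_affineSpan_of_mem_vectorSpan (subset_affineSpan ℝ s hp) h
  rw [vectorSpan_insert' hp]
  have hne : z - p ≠ 0 := fun h => hzp (by rw [h]; exact Submodule.zero_mem _)
  have hinf : Submodule.span ℝ {z - p} ⊓ vectorSpan ℝ s = ⊥ := by
    rw [Submodule.eq_bot_iff]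
    rintro x ⟨hx1, hx2⟩
    obtain ⟨c, rfl⟩ := Submodule.mem_span_singleton.1 hx1
    by_cases hc : c = 0
    · rw [hc, zero_smul]
    · exact absurd ((Submodule.smul_mem_iff _ hc).1 hx2) hzp
  have := Submodule.finrank_sup_add_finrank_inf_eq (Submodule.span ℝ {z - p}) (vectorSpan ℝ s)
  rw [hinf, finrank_bot, finrank_span_singleton hne] at this
  omega

theorem rep_cone {G : SimpleGraph ι} {p : ι → F} (h : Rep G p) {z : F}
    (hz : z ∉ affineSpan ℝ (range p)) :
    Rep (cone G) (fun o : Option ι => o.elim z p) := by
  rcases isEmpty_or_nonempty ι with hι | ⟨⟨i0⟩⟩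
  · constructor
    · rintro (_ | i)
      · exact ⟨0, fun j hj => by cases j with
          | none => exact absurd rfl hj
          | some j => exact hι.elim j⟩
      · exact hι.elim i
    · rintro (_ | i) (_ | j) hij
      · exact absurd rfl hij
      · exact hι.elim j
      · exact hι.elim i
      · exact hι.elim i
  have hzp : z - p i0 ∉ vectorSpan ℝ (range p) := by
    intro h
    apply hz
    have h2 : z = (z - p i0) +ᵥ p i0 := by simp
    rw [h2]
    exact vadd_mem_affineSpan_of_mem_affineSpan_of_mem_vectorSpan
      (subset_affineSpan ℝ _ (mem_range_self i0)) h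
  obtain ⟨f0, hf0, hker⟩ := Submodule.exists_le_ker_of_notMem hzp
  -- normalise
  set f : F →ₗ[ℝ] ℝ := (f0 (z - p i0))⁻¹ • f0 with hf
  have hfz : f z = f (p i0) + 1 := by
    have : f (z - p i0) = 1 := by
      rw [hf]; simp only [LinearMap.smul_apply, smul_eq_mul]; exact inv_mul_cancel₀ hf0
    rw [map_sub] at this; linarith
  have hfp : ∀ i, f (p i) = f (p i0) := by
    intro i
    have h1 : p i - p i0 ∈ vectorSpan ℝ (range p) :=
      vsub_mem_vectorSpan ℝ (mem_range_self i) (mem_range_self i0)
    have h2 : f0 (p i - p i0) = 0 := hker h1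
    have : f (p i - p i0) = 0 := by
      rw [hf]; simp only [LinearMap.smul_apply, smul_eq_mul, h2, mul_zero]
    rw [map_sub] at this; linarith
  -- given `l` and a value `t`, adjust the value at `z`
  have adj : ∀ (l : F →ₗ[ℝ] ℝ) (i : ι) (t : ℝ), ∃ l' : F →ₗ[ℝ] ℝ,
      (∀ j k, l' (p j) - l' (p k) = l (p j) - l (p k)) ∧ l' z - l' (p i) = t := by
    intro l i t
    refine ⟨l + (t - (l z - l (p i))) • f, fun j k => ?_, ?_⟩
    · simp only [LinearMap.add_apply, LinearMap.smul_apply, smul_eq_mul, hfp j, hfp k]; ring
    · simp only [LinearMap.add_apply, LinearMap.smul_apply, smul_eq_mul, hfp i, hfz]; ring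
  constructor
  · rintro (_ | i)
    · refine ⟨f, fun j hj => ?_⟩
      cases j with
      | none => exact absurd rfl hj
      | some j => simp only [Option.elim]; rw [hfp j, hfz]; linarith
    · obtain ⟨l, hl⟩ := h.1 i
      obtain ⟨l', hl', hz'⟩ := adj l i (-1)
      refine ⟨l', fun j hj => ?_⟩
      cases j with
      | none => simp only [Option.elim]; linarith
      | some j =>
        have := hl j (fun h' => hj (by rw [h']))
        have := hl' j i
        simp only [Option.elim]; linarith
  · have none_some : ∀ i, EdgeAt (fun o : Option ι => o.elim z p) none (some i) := by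
      intro i
      obtain ⟨l, hl⟩ := h.1 i
      obtain ⟨l', hl', hz'⟩ := adj l i 0
      refine ⟨l', by simp only [Option.elim]; linarith, fun m hm1 hm2 => ?_⟩
      cases m with
      | none => exact absurd rfl hm1
      | some j =>
        have := hl j (fun h' => hm2 (by rw [h']))
        have := hl' j i
        simp only [Option.elim]; linarith
    rintro (_ | i) (_ | j) hij
    · exact absurd rfl hij
    · simpa using none_some j
    · simpa using (none_some i).symm
    · have hij' : i ≠ j := fun h' => hij (by rw [h'])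
      rw [cone_some_some, h.2 i j hij']
      constructor
      · rintro ⟨l, h1, h2⟩
        obtain ⟨l', hl', hz'⟩ := adj l i (-1)
        refine ⟨l', ?_, fun m hm1 hm2 => ?_⟩
        · have := hl' i j
          simp only [Option.elim]; linarith
        · cases m with
          | none => simp only [Option.elim]; linarith
          | some m =>
            have := h2 m (fun h' => hm1 (by rw [h'])) (fun h' => hm2 (by rw [h']))
            have := hl' m i
            simp only [Option.elim]; linarith
      · rintro ⟨l, h1, h2⟩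
        exact ⟨l, h1, fun m hm1 hm2 => h2 (some m) (fun h' => hm1 (Option.some.inj h'))
          (fun h' => hm2 (Option.some.inj h'))⟩

end general

end Pool.Agent.Lib.MP_1e46c9_co
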