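import Mathlib

/-!
Definitions for the problem on dimensional ambiguity of graphs of iterated pyramids:
convex polytopes in Euclidean spaces, their graphs and face lattices, the notions of
dimensional, strong and weak ambiguity of a graph, admissible bases and iterated pyramids.
-/

namespace Pool.Agent.Lib.MP_1e46c9_co

/-- The `N`-dimensional Euclidean space. -/
abbrev E (N : ℕ) : Type := EuclideanSpace ℝ (Fin N)

/-- `P` is a `d`-polytope: the convex hull of a nonempty finite set of points of a Euclidean
space, whose affine hull has dimension `d`. -/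
def IsPolytope {N : ℕ} (d : ℕ) (P : Set (E N)) : Prop :=
  (∃ s : Finset (E N), s.Nonempty ∧ P = convexHull ℝ (s : Set (E N))) ∧
    Module.finrank ℝ (vectorSpan ℝ P) = d

/-- The vertices of `P` (its extreme points). -/
abbrev Vert {N : ℕ} (P : Set (E N)) : Type := {x : E N // x ∈ P.extremePoints ℝ}

/-- The graph (1-skeleton) of `P`: two distinct vertices are adjacent when the segment
joining them is a face of `P`. -/
def polyGraph {N : ℕ} (P : Set (E N)) : SimpleGraph (Vert P) where
  Adj u v := u ≠ v ∧ IsExposed ℝ P (segment ℝ (u : E N) (v : E N))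
  symm := ⟨fun u v h => ⟨h.1.symm, by rw [segment_symm]; exact h.2⟩⟩
  loopless := ⟨fun u h => h.1 rfl⟩

/-- The faces of `P` (including the empty face and `P` itself), ordered by inclusion. -/
abbrev Face {N : ℕ} (P : Set (E N)) : Type := {F : Set (E N) // IsExposed ℝ P F}

/-- The face lattices of `P` and `Q` are isomorphic. -/
def CombEquiv {N M : ℕ} (P : Set (E N)) (Q : Set (E M)) : Prop :=
  Nonempty (Face P ≃o Face Q)

/-- `G` is `d`-realizable: it is isomorphic to the graph of some `d`-polytope. -/
def Realizable (d : ℕ) {V : Type} (G : SimpleGraph V) : Prop :=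
  ∃ (N : ℕ) (P : Set (E N)), IsPolytope d P ∧ Nonempty (G ≃g polyGraph P)

/-- `G` is dimensionally ambiguous. -/
def DimAmbiguous {V : Type} (G : SimpleGraph V) : Prop :=
  ∃ d d' : ℕ, d ≠ d' ∧ Realizable d G ∧ Realizable d' G

/-- `G` is strongly `d`-ambiguous. -/
def StronglyAmbiguous (d : ℕ) {V : Type} (G : SimpleGraph V) : Prop :=
  ∃ (N M : ℕ) (P : Set (E N)) (Q : Set (E M)), IsPolytope d P ∧ IsPolytope d Q ∧
    Nonempty (G ≃g polyGraph P) ∧ Nonempty (G ≃g polyGraph Q) ∧ ¬ CombEquiv P Q

/-- `G` is weakly `d`-ambiguous: there are a `d`-polytope `P` and two isomorphisms `φ, ψ` from `G`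
onto the graph of `P` such that the graph automorphism `φ ψ⁻¹` does not extend to an automorphism
of the face lattice of `P`. -/
def WeaklyAmbiguous (d : ℕ) {V : Type} (G : SimpleGraph V) : Prop :=
  ∃ (N : ℕ) (P : Set (E N)), IsPolytope d P ∧ ∃ φ ψ : G ≃g polyGraph P,
    ¬ ∃ τ : Face P ≃o Face P, ∀ (x : Vert P) (F : Face P),
      (x : E N) ∈ F.1 ↔ ((φ (ψ.symm x) : Vert P) : E N) ∈ (τ F).1

/-- `P` is an admissible basis `P^n`: an `n`-polytope whose graph is dimensionally unambiguous,
neither strongly nor weakly `n`-ambiguous, and has no `n`-realizable proper subgraph. -/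
def Admissible {N : ℕ} (n : ℕ) (P : Set (E N)) : Prop :=
  IsPolytope n P ∧ ¬ DimAmbiguous (polyGraph P) ∧ ¬ StronglyAmbiguous n (polyGraph P) ∧
    ¬ WeaklyAmbiguous n (polyGraph P) ∧
    ∀ H : (polyGraph P).Subgraph, H ≠ ⊤ → ¬ Realizable n H.coe

/-- `Q` is a pyramid with basis `B`: the convex hull of `B` and a point outside the affine hull
of `B`. -/
def IsPyramid {N : ℕ} (B Q : Set (E N)) : Prop :=
  ∃ z : E N, z ∉ affineSpan ℝ B ∧ Q = convexHull ℝ (insert z B)

/-- `Q` is a `k`-fold pyramid with basis `B`: the pyramid construction is applied `k` times. -/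
def IsIteratedPyramid {N : ℕ} : ℕ → Set (E N) → Set (E N) → Prop
  | 0, B, Q => Q = B
  | k + 1, B, Q => ∃ R, IsIteratedPyramid k B R ∧ IsPyramid R Q

end Pool.Agent.Lib.MP_1e46c9_co
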