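import Pool.Agent.Lib.MP_1e46c9_co.Trick

open Set Module Filter Topology

namespace Pool.Agent.Lib.MP_1e46c9_co

variable {ι : Type} {N : ℕ}

theorem finrank_pair_le {F : Type} [AddCommGroup F] [Module ℝ F] (a b : F) :
    finrank ℝ (Submodule.span ℝ ({a, b} : Set F)) ≤ 2 := by
  classical
  have h := finrank_span_le_card (R := ℝ) ({a, b} : Set F)
  refine h.trans ?_
  rw [Set.toFinset_insert, Set.toFinset_singleton]
  exact Finset.card_le_two

/-- In a direction space of dimension at least three there is a direction that is not in any of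
the planes spanned by a base point and two members of the family. -/
theorem exists_direction [Finite ι] (p : ι → E N) (c0 : E N)
    (h3 : 3 ≤ finrank ℝ (vectorSpan ℝ (range p))) :
    ∃ u ∈ vectorSpan ℝ (range p), ∀ i j, u ∉ Submodule.span ℝ {p i - c0, p j - c0} := by
  by_contra hcon
  push Not at hcon
  set V := vectorSpan ℝ (range p) with hV
  let W : ι × ι → Submodule ℝ V := fun ij =>
    (Submodule.span ℝ {p ij.1 - c0, p ij.2 - c0}).comap V.subtype
  have hcover : ⋃ ij, (W ij : Set V) = Set.univ := by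
    ext u
    simp only [mem_iUnion, mem_univ, iff_true]
    obtain ⟨i, j, hij⟩ := hcon u.1 u.2
    exact ⟨(i, j), hij⟩
  obtain ⟨⟨i, j⟩, hij⟩ := Subspace.exists_eq_top_of_iUnion_eq_univ hcover
  have hle : V ≤ Submodule.span ℝ {p i - c0, p j - c0} := by
    intro x hx
    have : (⟨x, hx⟩ : V) ∈ W (i, j) := by rw [hij]; trivial
    exact this
  have h1 := Submodule.finrank_mono hle
  have h2 := finrank_pair_le (p i - c0) (p j - c0)
  omega

theorem exists_good [Fintype ι] {p : ι → E N}
    (h3 : 3 ≤ finrank ℝ (vectorSpan ℝ (range p))) : ∃ x, GoodPoint p x := by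
  classical
  -- basic facts
  have hne : Nonempty ι := by
    by_contra h
    rw [not_nonempty_iff] at h
    have : vectorSpan ℝ (range p) = ⊥ := by rw [range_eq_empty]; simp
    rw [this, finrank_bot] at h3
    omega
  have hcard : 4 ≤ Fintype.card ι := by
    have := finrank_vectorSpan_range_add_one_le (k := ℝ) p
    omega
  obtain ⟨i0⟩ := hne
  set n : ℝ := (Fintype.card ι : ℝ) with hn
  have hnpos : 0 < n := by rw [hn]; exact_mod_cast (by omega : 0 < Fintype.card ι)
  set c0 : E N := ∑ i, n⁻¹ • p i with hc0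
  have hsum1 : ∑ _i : ι, n⁻¹ = 1 := by
    rw [Finset.sum_const, Finset.card_univ, nsmul_eq_mul]
    exact mul_inv_cancel₀ hnpos.ne'
  set P := convexHull ℝ (range p) with hP
  have hc0P : c0 ∈ P := by
    rw [hP, mem_hull_range]
    exact ⟨fun _ => n⁻¹, fun _ => by positivity, hsum1, rfl⟩
  have hPaff : P ⊆ affineSpan ℝ (range p) := convexHull_subset_affineSpan _
  -- the centroid is strictly below every maximum
  have havg : ∀ i j l, MaxAt p i j l → l c0 < l (p i) := by
    intro i j l ⟨h1, h2⟩
    have hle : ∀ m, l (p m) ≤ l (p i) := fun m => by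
      by_cases h : m = i
      · rw [h]
      · by_cases h' : m = j
        · rw [h', h1]
        · exact (h2 m h h').le
    obtain ⟨m, hmi, hmj⟩ : ∃ m, m ≠ i ∧ m ≠ j := by
      by_contra hcon
      push Not at hcon
      have hsub : (Finset.univ : Finset ι) ⊆ {i, j} := by
        intro m _
        by_cases h : m = i
        · simp [h]
        · simp [hcon m h]
      have h5 := Finset.card_le_card hsub
      have h6 := Finset.card_le_two (a := i) (b := j)
      rw [Finset.card_univ] at h5
      omega
    have hl : l c0 = ∑ k, n⁻¹ * l (p k) := by rw [hc0, map_sum]; simp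
    rw [hl]
    calc ∑ k, n⁻¹ * l (p k) < ∑ k, n⁻¹ * l (p i) := by
          apply Finset.sum_lt_sum
          · intro k _
            exact mul_le_mul_of_nonneg_left (hle k) (by positivity)
          · exact ⟨m, Finset.mem_univ m, mul_lt_mul_of_pos_left (h2 m hmi hmj) (by positivity)⟩
      _ = l (p i) := by rw [← Finset.sum_mul, hsum1, one_mul]
  obtain ⟨u, huV, hu⟩ := exists_direction p c0 h3
  have hu0 : u ≠ 0 := by
    intro h
    exact hu i0 i0 (by rw [h]; exact Submodule.zero_mem _)
  -- points on the ray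
  set T : Set ℝ := {t : ℝ | 0 ≤ t ∧ c0 + t • u ∈ P} with hT
  have hPcomp : IsCompact P := (Set.finite_range p).isCompact_convexHull (𝕜 := ℝ)
  have hTclosed : IsClosed T := by
    have h1 : IsClosed {t : ℝ | 0 ≤ t} := isClosed_Ici
    have h2 : IsClosed {t : ℝ | c0 + t • u ∈ P} :=
      hPcomp.isClosed.preimage (by fun_prop)
    exact h1.inter h2
  have hTne : T.Nonempty := ⟨0, le_refl _, by simpa using hc0P⟩
  have hTbdd : BddAbove T := by
    obtain ⟨R, hR⟩ := hPcomp.isBounded.exists_norm_le
    refine ⟨(R + ‖c0‖) / ‖u‖, ?_⟩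
    rintro t ⟨ht0, ht⟩
    have h1 := hR _ ht
    have h2 : ‖t • u‖ ≤ ‖c0 + t • u‖ + ‖c0‖ := by
      have h3 : t • u = (c0 + t • u) - c0 := by abel
      calc ‖t • u‖ = ‖(c0 + t • u) - c0‖ := by rw [← h3]
        _ ≤ _ := norm_sub_le _ _
    rw [norm_smul, Real.norm_of_nonneg ht0] at h2
    rw [le_div_iff₀ (norm_pos_iff.2 hu0)]
    linarith
  set t0 := sSup T with ht0
  have ht0T : t0 ∈ T := hTclosed.csSup_mem hTne hTbdd
  -- the boundary point is strictly below all maxima
  have hlow : ∀ i j l, MaxAt p i j l → l (c0 + t0 • u) < l (p i) := by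
    intro i j l hl
    have hle : ∀ m, l (p m) ≤ l (p i) := fun m => by
      by_cases h : m = i
      · rw [h]
      · by_cases h' : m = j
        · rw [h', hl.1]
        · exact (hl.2 m h h').le
    have hle' := le_of_mem_hull hle ht0T.2
    rcases lt_or_eq_of_le hle' with h | h
    · exact h
    exfalso
    have hseg : c0 + t0 • u ∈ segment ℝ (p i) (p j) := by
      by_cases hij : i = j
      · subst hij
        have := eq_of_max_one (fun m hm => hl.2 m hm hm) ht0T.2 h
        rw [this]
        exact left_mem_segment ℝ _ _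
      · exact mem_segment_of_max_two hij hl.1 hl.2 ht0T.2 h
    rcases eq_or_lt_of_le ht0T.1 with h0 | hpos
    · have h1 := havg i j l hl
      rw [← h0, zero_smul, add_zero] at h
      linarith
    · obtain ⟨a, b, ha, hb, hab, hx⟩ := hseg
      apply hu i j
      have h1 : t0 • u = a • (p i - c0) + b • (p j - c0) := by
        have : c0 = a • c0 + b • c0 := by rw [← add_smul, hab, one_smul]
        rw [smul_sub, smul_sub]
        calc t0 • u = (c0 + t0 • u) - c0 := by abel
          _ = (a • p i + b • p j) - (a • c0 + b • c0) := by rw [← this, hx]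
          _ = _ := by abel
      have h2 : t0 • u ∈ Submodule.span ℝ {p i - c0, p j - c0} := by
        rw [h1]
        apply Submodule.add_mem
        · exact Submodule.smul_mem _ _ (Submodule.subset_span (by simp))
        · exact Submodule.smul_mem _ _ (Submodule.subset_span (by simp))
      exact (Submodule.smul_mem_iff _ hpos.ne').1 h2
  -- choose witnesses
  have hchoose : ∀ ij : ι × ι, ∃ l' : E N →ₗ[ℝ] ℝ,
      (∃ l, MaxAt p ij.1 ij.2 l) → MaxAt p ij.1 ij.2 l' := by
    intro ij
    by_cases h : ∃ l, MaxAt p ij.1 ij.2 l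
    · obtain ⟨l, hl⟩ := h
      exact ⟨l, fun _ => hl⟩
    · exact ⟨0, fun h' => absurd h' h⟩
  choose L hL using hchoose
  have hev : ∀ᶠ t in 𝓝 t0, ∀ ij : ι × ι, (∃ l, MaxAt p ij.1 ij.2 l) →
      L ij (c0 + t • u) < L ij (p ij.1) := by
    rw [Filter.eventually_all]
    intro ij
    by_cases h : ∃ l, MaxAt p ij.1 ij.2 l
    · have h1 := hlow ij.1 ij.2 (L ij) (hL ij h)
      have hcont : Continuous fun t : ℝ => L ij (c0 + t • u) := by
        have : Continuous (L ij) := LinearMap.continuous_of_finiteDimensional _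
        exact this.comp (by fun_prop)
      have h2 : ∀ᶠ t in 𝓝 t0, L ij (c0 + t • u) < L ij (p ij.1) :=
        hcont.continuousAt.eventually_lt continuousAt_const h1
      filter_upwards [h2] with t ht _ using ht
    · exact Eventually.of_forall fun t h' => absurd h' h
  have hev2 : ∀ᶠ t in 𝓝[>] t0, ∀ ij : ι × ι, (∃ l, MaxAt p ij.1 ij.2 l) →
      L ij (c0 + t • u) < L ij (p ij.1) := hev.filter_mono nhdsWithin_le_nhds
  obtain ⟨t, ht, htgt⟩ := (hev2.and self_mem_nhdsWithin).exists
  have htgt' : t0 < t := htgt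
  have htP : c0 + t • u ∉ P := by
    intro h
    have : t ∈ T := ⟨ht0T.1.trans htgt'.le, h⟩
    have := le_csSup hTbdd this
    linarith
  refine ⟨c0 + t • u, ?_, ?_, ?_⟩
  · have h1 : c0 + t • u = (t • u) +ᵥ c0 := by rw [vadd_eq_add, add_comm]
    rw [h1]
    exact vadd_mem_affineSpan_of_mem_affineSpan_of_mem_vectorSpan (hPaff hc0P)
      (Submodule.smul_mem _ _ huV)
  · obtain ⟨f, r, hf, hr⟩ := geometric_hahn_banach_closed_point (convex_convexHull ℝ (range p))
      hPcomp.isClosed htP
    exact ⟨f.toLinearMap, fun i =>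
      (hf _ (subset_convexHull ℝ _ (mem_range_self i))).trans hr⟩
  · intro i j l hl
    exact ⟨L (i, j), hL (i, j) ⟨l, hl⟩, ht (i, j) ⟨l, hl⟩⟩

end Pool.Agent.Lib.MP_1e46c9_co
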