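import Pool.Agent.Lib.MP_1e46c9_co.Good

open Set Module

namespace Pool.Agent.Lib.MP_1e46c9_co

variable {ι κ : Type} {N : ℕ}

/-- `G` is represented by a family of points whose affine hull has dimension `d`. -/
def Rl (d : ℕ) (G : SimpleGraph ι) : Prop :=
  ∃ (N : ℕ) (p : ι → E N), Rep G p ∧ finrank ℝ (vectorSpan ℝ (range p)) = d

theorem Rl.iso {d : ℕ} {G : SimpleGraph ι} {H : SimpleGraph κ} (h : Rl d G) (e : G ≃g H) :
    Rl d H := by
  obtain ⟨N, p, hp, hd⟩ := h
  refine ⟨N, p ∘ e.symm, hp.comp_equiv e, ?_⟩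
  rw [e.symm.surjective.range_comp]
  exact hd

theorem Rl.of_rep {d : ℕ} {F : Type} [AddCommGroup F] [Module ℝ F] [FiniteDimensional ℝ F]
    {G : SimpleGraph ι} {p : ι → F} (h : Rep G p) (hd : finrank ℝ (vectorSpan ℝ (range p)) = d) :
    Rl d G := by
  let e : F ≃ₗ[ℝ] E (finrank ℝ F) := LinearEquiv.ofFinrankEq _ _ (by simp)
  refine ⟨finrank ℝ F, e ∘ p, h.map e, ?_⟩
  rw [range_comp, ← hd]
  exact finrank_vectorSpan_map e.toLinearMap e.injective (range p)

theorem Rl.realizable [Finite ι] [Nonempty ι] {d : ℕ} {G : SimpleGraph ι} (h : Rl d G) :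
    Realizable d G := by
  have : Fintype ι := Fintype.ofFinite ι
  obtain ⟨N, p, hp, hd⟩ := h
  exact ⟨N, convexHull ℝ (range p), isPolytope_hull_range hd, hp.iso⟩

theorem IsPolytope.rl {d : ℕ} {P : Set (E N)} (h : IsPolytope d P) : Rl d (polyGraph P) :=
  ⟨N, _, h.rep, h.finrank_range⟩

theorem IsPolytope.finite {d : ℕ} {P : Set (E N)} (h : IsPolytope d P) : Finite (Vert P) :=
  h.finite_vert

/-- One more apex, one more dimension. -/
theorem Rl.cone [Nonempty ι] {d : ℕ} {G : SimpleGraph ι} (h : Rl d G) :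
    Rl (d + 1) (cone G) := by
  obtain ⟨N, p, hp, hd⟩ := h
  obtain ⟨i0⟩ := ‹Nonempty ι›
  let e : E N →ₗ[ℝ] (E N × ℝ) := LinearMap.inl ℝ (E N) ℝ
  have he : Function.Injective e := LinearMap.inl_injective
  have hrep : Rep G (e ∘ p) := by
    constructor
    · intro i
      obtain ⟨l, hl⟩ := hp.1 i
      exact ⟨ext2 l 0, fun j hj => by
        simp only [Function.comp, e, LinearMap.inl_apply, ext2_apply]
        linarith [hl j hj]⟩
    · intro i j hij
      rw [hp.2 i j hij]
      constructor
      · rintro ⟨l, h3, h4⟩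
        exact ⟨ext2 l 0, by simp [e, h3], fun m hi hj => by simpa [e] using h4 m hi hj⟩
      · rintro ⟨l, h3, h4⟩
        exact ⟨l ∘ₗ e, h3, fun m hi hj => h4 m hi hj⟩
  have hz : ((0, 1) : E N × ℝ) ∉ affineSpan ℝ (range (e ∘ p)) := by
    intro hmem
    have h1 : affineSpan ℝ (range (e ∘ p)) = (affineSpan ℝ (range p)).map e.toAffineMap := by
      rw [AffineSubspace.map_span, range_comp]; rfl
    rw [h1] at hmem
    obtain ⟨y, _, hy⟩ := hmem
    have := congrArg Prod.snd hy
    simp [e] at this
  have h2 := rep_cone hrep hz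
  refine Rl.of_rep h2 ?_
  have h3 : range (fun o : Option ι => o.elim ((0, 1) : E N × ℝ) (e ∘ p)) =
      insert ((0, 1) : E N × ℝ) (range (e ∘ p)) := by
    ext y
    constructor
    · rintro ⟨(_ | i), rfl⟩
      · left; rfl
      · right; exact ⟨i, rfl⟩
    · rintro (rfl | ⟨i, rfl⟩)
      · exact ⟨none, rfl⟩
      · exact ⟨some i, rfl⟩
  rw [h3, finrank_insert_of_notMem ⟨_, mem_range_self i0⟩ hz, range_comp,
    finrank_vectorSpan_map e he, hd]

/-- Two more apexes, one more dimension (from dimension three on). -/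
theorem Rl.cone_cone [Finite ι] {d : ℕ} (h3 : 3 ≤ d) {G : SimpleGraph ι} (h : Rl d G) :
    Rl (d + 1) (MP_1e46c9_co.cone (MP_1e46c9_co.cone G)) := by
  have : Fintype ι := Fintype.ofFinite ι
  obtain ⟨N, p, hp, hd⟩ := h
  obtain ⟨x, hx⟩ := exists_good (p := p) (by omega)
  have hne : Nonempty ι := by
    by_contra h
    rw [not_nonempty_iff] at h
    have : vectorSpan ℝ (range p) = ⊥ := by rw [range_eq_empty]; simp
    rw [this, finrank_bot] at hd
    omega
  refine Rl.of_rep (rep_dbl hp hx) ?_
  rw [finrank_dbl hx.span, hd]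

/-! ### Pyramids -/

/-- A pyramid over a polytope: it is a polytope, and its graph is the cone. -/
theorem pyramid_facts {d : ℕ} {B Q : Set (E N)} (hB : IsPolytope d B) (hQ : IsPyramid B Q) :
    IsPolytope (d + 1) Q ∧ Nonempty (MP_1e46c9_co.cone (polyGraph B) ≃g polyGraph Q) := by
  have : Fintype (Vert B) := hB.finite_vert.fintype
  have hne := hB.nonempty_vert
  obtain ⟨i0⟩ := hne
  obtain ⟨z, hz, rfl⟩ := hQ
  have hz' : z ∉ affineSpan ℝ (range (Subtype.val : Vert B → E N)) := by
    rw [← affineSpan_convexHull, hB.eq_hull_range]; exact hz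
  have hrange : range (fun o : Option (Vert B) => o.elim z Subtype.val) =
      insert z (range (Subtype.val : Vert B → E N)) := by
    ext y
    constructor
    · rintro ⟨(_ | i), rfl⟩
      · left; rfl
      · right; exact ⟨i, rfl⟩
    · rintro (rfl | ⟨i, rfl⟩)
      · exact ⟨none, rfl⟩
      · exact ⟨some i, rfl⟩
  have hhull : convexHull ℝ (insert z B) =
      convexHull ℝ (range (fun o : Option (Vert B) => o.elim z Subtype.val)) := by
    rw [hrange]
    apply Subset.antisymm
    · apply convexHull_min _ (convex_convexHull ℝ _)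
      rintro y (rfl | hy)
      · exact subset_convexHull ℝ _ (mem_insert _ _)
      · have h1 : y ∈ convexHull ℝ (range (Subtype.val : Vert B → E N)) := by
          rw [hB.eq_hull_range]; exact hy
        exact convexHull_mono (subset_insert _ _) h1
    · apply convexHull_mono
      apply insert_subset_insert
      conv_rhs => rw [← hB.eq_hull_range]
      exact subset_convexHull ℝ _
  have hrep := rep_cone hB.rep hz'
  rw [hhull]
  constructor
  · apply isPolytope_hull_range
    rw [hrange, finrank_insert_of_notMem ⟨_, mem_range_self i0⟩ hz', hB.finrank_range]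
  · exact hrep.iso

theorem iterated_isPolytope {n : ℕ} {P : Set (E N)} (hP : IsPolytope n P) :
    ∀ (k : ℕ) (R : Set (E N)), IsIteratedPyramid k P R → IsPolytope (n + k) R := by
  intro k
  induction k with
  | zero => rintro R rfl; exact hP
  | succ k ih =>
    rintro R ⟨Q, hQ, hR⟩
    exact (pyramid_facts (ih Q hQ) hR).1

/-- Main induction: the graph of a `k`-fold pyramid over an `n`-polytope with `n ≥ 3` can be
realised in each dimension `n + k - j` with `2 j ≤ k`. -/
theorem iterated_rl {n : ℕ} (hn : 3 ≤ n) {P : Set (E N)} (hP : IsPolytope n P) :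
    ∀ (k j : ℕ) (R : Set (E N)), 2 * j ≤ k → IsIteratedPyramid k P R →
      Rl (n + k - j) (polyGraph R) := by
  intro k
  induction k using Nat.strong_induction_on with
  | _ k ih =>
    intro j R hj hR
    have hRpoly := iterated_isPolytope hP k R hR
    rcases j with _ | j
    · exact hRpoly.rl
    obtain ⟨k, rfl⟩ : ∃ k', k = k' + 2 := ⟨k - 2, by omega⟩
    obtain ⟨Q', ⟨Q, hQ, hQ'⟩, hRQ'⟩ := hR
    have hQpoly := iterated_isPolytope hP k Q hQ
    have hQ'facts := pyramid_facts hQpoly hQ'
    obtain ⟨-, ⟨e1⟩⟩ := hQ'facts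
    obtain ⟨-, ⟨e2⟩⟩ := pyramid_facts (pyramid_facts hQpoly hQ').1 hRQ'
    have h1 := ih k (by omega) j Q (by omega) hQ
    have := hQpoly.finite
    have h2 := Rl.cone_cone (by omega) h1
    have e : MP_1e46c9_co.cone (MP_1e46c9_co.cone (polyGraph Q)) ≃g polyGraph R :=
      (coneIso e1).trans e2
    have h3 := h2.iso e
    have h4 : n + k - j + 1 = n + (k + 2) - (j + 1) := by omega
    rw [← h4]
    exact h3

theorem iterated_realizable {n : ℕ} (hn : 3 ≤ n) {P : Set (E N)} (hP : IsPolytope n P)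
    (k j : ℕ) (R : Set (E N)) (hj : 2 * j ≤ k) (hR : IsIteratedPyramid k P R) :
    Realizable (n + k - j) (polyGraph R) := by
  have hRpoly := iterated_isPolytope hP k R hR
  have := hRpoly.finite
  have := hRpoly.nonempty_vert
  exact (iterated_rl hn hP k j R hj hR).realizable

end Pool.Agent.Lib.MP_1e46c9_co
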