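import Pool.Agent.Lib.MP_1e46c9_co.Basic

open Set Module

namespace Pool.Agent.Lib.MP_1e46c9_co

variable {N : ℕ} {ι : Type}

/-- Turn a linear functional on `E N` into a continuous one. -/
noncomputable def toC (l : E N →ₗ[ℝ] ℝ) : StrongDual ℝ (E N) := LinearMap.toContinuousLinearMap l

@[simp] theorem toC_apply (l : E N →ₗ[ℝ] ℝ) (x : E N) : toC l x = l x := rfl

theorem Sharp.mem_extreme [Fintype ι] {p : ι → E N} (h : Sharp p) (i : ι) :
    p i ∈ (convexHull ℝ (range p)).extremePoints ℝ := by
  apply exposedPoints_subset_extremePoints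
  rw [mem_exposedPoints_iff_exposed_singleton]
  intro _
  obtain ⟨l, hl⟩ := h i
  refine ⟨toC l, ?_⟩
  have hle : ∀ j, l (p j) ≤ l (p i) := fun j => by
    by_cases h : j = i
    · rw [h]
    · exact (hl j h).le
  ext x
  simp only [mem_singleton_iff, mem_ofPred_eq, toC_apply]
  constructor
  · rintro rfl
    exact ⟨subset_convexHull ℝ _ (mem_range_self i), fun y hy => le_of_mem_hull hle hy⟩
  · rintro ⟨hx, hmax⟩
    have h1 := hmax (p i) (subset_convexHull ℝ _ (mem_range_self i))
    have h2 := le_of_mem_hull hle hx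
    exact eq_of_max_one hl hx (le_antisymm h2 h1)

theorem Sharp.extremePoints_eq [Fintype ι] {p : ι → E N} (h : Sharp p) :
    (convexHull ℝ (range p)).extremePoints ℝ = range p := by
  apply Subset.antisymm extremePoints_convexHull_subset
  rintro _ ⟨i, rfl⟩
  exact h.mem_extreme i

theorem Sharp.exposed_iff [Fintype ι] {p : ι → E N} (h : Sharp p) {i j : ι} (hij : i ≠ j) :
    IsExposed ℝ (convexHull ℝ (range p)) (segment ℝ (p i) (p j)) ↔ EdgeAt p i j := by
  constructor
  · intro hexp
    obtain ⟨l, hl⟩ := hexp ⟨p i, left_mem_segment ℝ _ _⟩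
    have hi : p i ∈ segment ℝ (p i) (p j) := left_mem_segment ℝ _ _
    have hj : p j ∈ segment ℝ (p i) (p j) := right_mem_segment ℝ _ _
    have hi' := hi
    have hj' := hj
    rw [hl] at hi' hj'
    have heq : l (p i) = l (p j) := le_antisymm (hj'.2 _ hi'.1) (hi'.2 _ hj'.1)
    refine ⟨l.toLinearMap, heq, fun m hmi hmj => ?_⟩
    by_contra hcon
    have hge : l (p i) ≤ l (p m) := not_lt.1 hcon
    have hm : p m ∈ segment ℝ (p i) (p j) := by
      rw [hl]
      exact ⟨subset_convexHull ℝ _ (mem_range_self m), fun y hy => (hi'.2 y hy).trans hge⟩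
    obtain ⟨f, hf⟩ := h m
    obtain ⟨a, b, ha, hb, hab, hx⟩ := hm
    have h1 := hf i (Ne.symm hmi)
    have h2 := hf j (Ne.symm hmj)
    have h3 : f (p m) = a * f (p i) + b * f (p j) := by rw [← hx]; simp
    have h4 : a * f (p i) + b * f (p j) ≤ a * f (p m) + b * f (p m) - 0 := by
      nlinarith [mul_le_mul_of_nonneg_left h1.le ha, mul_le_mul_of_nonneg_left h2.le hb]
    rcases eq_or_lt_of_le ha with ha0 | hapos
    · have hb1 : b = 1 := by linarith
      rw [← ha0, hb1] at h3
      simp only [zero_mul, one_mul, zero_add] at h3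
      linarith
    · have h5 : a * f (p i) < a * f (p m) := mul_lt_mul_of_pos_left h1 hapos
      have h6 : b * f (p j) ≤ b * f (p m) := mul_le_mul_of_nonneg_left h2.le hb
      have h7 : a * f (p m) + b * f (p m) = f (p m) := by rw [← add_mul, hab, one_mul]
      linarith
  · rintro ⟨l, heq, hl⟩ _
    refine ⟨toC l, ?_⟩
    have hle : ∀ m, l (p m) ≤ l (p i) := fun m => by
      by_cases h : m = i
      · rw [h]
      · by_cases h' : m = j
        · rw [h', heq]
        · exact (hl m h h').le
    ext x
    simp only [mem_ofPred_eq, toC_apply]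
    constructor
    · intro hx
      refine ⟨?_, fun y hy => ?_⟩
      · exact (convex_convexHull ℝ _).segment_subset
          (subset_convexHull ℝ _ (mem_range_self i)) (subset_convexHull ℝ _ (mem_range_self j)) hx
      · obtain ⟨a, b, ha, hb, hab, rfl⟩ := hx
        have : l (a • p i + b • p j) = l (p i) := by
          rw [map_add, map_smul, map_smul, ← heq, ← add_smul, hab, one_smul]
        rw [this]
        exact le_of_mem_hull hle hy
    · rintro ⟨hx, hmax⟩
      have h1 := hmax (p i) (subset_convexHull ℝ _ (mem_range_self i))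
      have h2 := le_of_mem_hull hle hx
      exact mem_segment_of_max_two hij heq hl hx (le_antisymm h2 h1)

/-- The graph of the convex hull of a family representing `G` is isomorphic to `G`. -/
theorem Rep.iso [Fintype ι] {G : SimpleGraph ι} {p : ι → E N} (h : Rep G p) :
    Nonempty (G ≃g polyGraph (convexHull ℝ (range p))) := by
  have hmem : ∀ i, p i ∈ (convexHull ℝ (range p)).extremePoints ℝ := h.1.mem_extreme
  let f : ι → Vert (convexHull ℝ (range p)) := fun i => ⟨p i, hmem i⟩
  have hf : Function.Bijective f := by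
    constructor
    · intro i j hij
      exact h.1.injective (congrArg Subtype.val hij)
    · rintro ⟨x, hx⟩
      have hx' := hx
      rw [h.1.extremePoints_eq] at hx'
      obtain ⟨i, rfl⟩ := hx'
      exact ⟨i, rfl⟩
  refine ⟨⟨Equiv.ofBijective f hf, ?_⟩⟩
  intro i j
  change (f i ≠ f j ∧ IsExposed ℝ (convexHull ℝ (range p)) (segment ℝ (p i) (p j))) ↔ G.Adj i j
  by_cases hij : i = j
  · subst hij
    simp
  · rw [h.1.exposed_iff hij, h.2 i j hij]
    exact ⟨fun h => h.2, fun h => ⟨fun h' => hij (hf.1 h'), h⟩⟩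

/-! ### From a polytope to the family of its vertices -/

theorem IsPolytope.finite_vert {d : ℕ} {P : Set (E N)} (h : IsPolytope d P) :
    (P.extremePoints ℝ).Finite := by
  obtain ⟨⟨s, hs, rfl⟩, -⟩ := h
  exact s.finite_toSet.subset extremePoints_convexHull_subset

theorem IsPolytope.eq_hull {d : ℕ} {P : Set (E N)} (h : IsPolytope d P) :
    convexHull ℝ (P.extremePoints ℝ) = P := by
  have hfin := h.finite_vert
  obtain ⟨⟨s, hs, hP⟩, -⟩ := h
  have hc : IsCompact P := by rw [hP]; exact s.finite_toSet.isCompact_convexHull (𝕜 := ℝ)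
  have hconv : Convex ℝ P := by rw [hP]; exact convex_convexHull ℝ _
  have := closure_convexHull_extremePoints hc hconv
  have h2 : IsClosed (convexHull ℝ (P.extremePoints ℝ)) := (hfin.isCompact_convexHull (𝕜 := ℝ)).isClosed
  rw [h2.closure_eq] at this
  exact this

theorem IsPolytope.eq_hull_range {d : ℕ} {P : Set (E N)} (h : IsPolytope d P) :
    convexHull ℝ (range (Subtype.val : Vert P → E N)) = P := by
  have : range (Subtype.val : Vert P → E N) = P.extremePoints ℝ := by
    simp
  rw [this, h.eq_hull]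

theorem IsPolytope.sharp {d : ℕ} {P : Set (E N)} (h : IsPolytope d P) :
    Sharp (Subtype.val : Vert P → E N) := by
  have hfin := h.finite_vert
  rintro ⟨x, hx⟩
  have hx1 : x ∉ convexHull ℝ (P.extremePoints ℝ \ {x}) := by
    intro hmem
    have hsub : convexHull ℝ (P.extremePoints ℝ \ {x}) ⊆ P := by
      conv_rhs => rw [← h.eq_hull]
      exact convexHull_mono sdiff_subset
    have h1 : x ∈ (convexHull ℝ (P.extremePoints ℝ \ {x})).extremePoints ℝ :=
      inter_extremePoints_subset_extremePoints_of_subset hsub ⟨hmem, hx⟩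
    have h2 := extremePoints_convexHull_subset h1
    exact h2.2 rfl
  have hclosed : IsClosed (convexHull ℝ (P.extremePoints ℝ \ {x})) :=
    ((hfin.subset sdiff_subset).isCompact_convexHull (𝕜 := ℝ)).isClosed
  obtain ⟨f, u, hf, hu⟩ := geometric_hahn_banach_closed_point (convex_convexHull ℝ _) hclosed hx1
  refine ⟨f.toLinearMap, ?_⟩
  rintro ⟨y, hy⟩ hne
  have : y ∈ P.extremePoints ℝ \ {x} := ⟨hy, fun h' => hne (Subtype.ext h')⟩
  exact (hf y (subset_convexHull ℝ _ this)).trans hu

theorem IsPolytope.rep {d : ℕ} {P : Set (E N)} (h : IsPolytope d P) :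
    Rep (polyGraph P) (Subtype.val : Vert P → E N) := by
  have : Fintype (Vert P) := h.finite_vert.fintype
  refine ⟨h.sharp, fun i j hij => ?_⟩
  rw [← h.sharp.exposed_iff hij, h.eq_hull_range]
  exact ⟨fun h => h.2, fun h => ⟨hij, h⟩⟩

theorem vectorSpan_hull {V : Type} [AddCommGroup V] [Module ℝ V] (s : Set V) :
    vectorSpan ℝ (convexHull ℝ s) = vectorSpan ℝ s := by
  rw [← direction_affineSpan, affineSpan_convexHull, direction_affineSpan]

theorem IsPolytope.finrank_range {d : ℕ} {P : Set (E N)} (h : IsPolytope d P) :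
    finrank ℝ (vectorSpan ℝ (range (Subtype.val : Vert P → E N))) = d := by
  rw [← vectorSpan_hull, h.eq_hull_range]
  exact h.2

theorem IsPolytope.nonempty_vert {d : ℕ} {P : Set (E N)} (h : IsPolytope d P) :
    Nonempty (Vert P) := by
  by_contra hcon
  rw [not_nonempty_iff] at hcon
  have h1 : range (Subtype.val : Vert P → E N) = ∅ := range_eq_empty _
  have h2 := h.eq_hull_range
  rw [h1, convexHull_empty] at h2
  obtain ⟨⟨s, ⟨x, hx⟩, hP⟩, -⟩ := h
  have : x ∈ P := by rw [hP]; exact subset_convexHull ℝ _ hx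
  rw [← h2] at this
  exact this

/-- A family with finite nonempty index type spans a polytope. -/
theorem isPolytope_hull_range [Fintype ι] [Nonempty ι] {p : ι → E N} {d : ℕ}
    (h : finrank ℝ (vectorSpan ℝ (range p)) = d) :
    IsPolytope d (convexHull ℝ (range p)) := by
  classical
  refine ⟨⟨Finset.univ.image p, Finset.univ_nonempty.image p, by simp⟩, ?_⟩
  rw [vectorSpan_hull]
  exact h

end Pool.Agent.Lib.MP_1e46c9_co
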