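import Pool.Agent.Lib.MP_1e46c9_co.Iterate

open Set Module

namespace Pool.Agent.Lib.MP_1e46c9_co

variable {ι κ : Type} {N : ℕ}

section general
variable {F : Type} [AddCommGroup F] [Module ℝ F]

/-- On an affinely independent family a linear functional can take prescribed values up to a
common constant. -/
theorem exists_functional {p : ι → F} (hp : AffineIndependent ℝ p) (g : ι → ℝ) :
    ∃ (l : F →ₗ[ℝ] ℝ) (c : ℝ), ∀ i, l (p i) = g i + c := by
  rcases isEmpty_or_nonempty ι with hι | ⟨⟨i0⟩⟩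
  · exact ⟨0, 0, fun i => hι.elim i⟩
  rw [affineIndependent_iff_linearIndependent_vsub ℝ p i0] at hp
  let b := Basis.span hp
  let l0 : Submodule.span ℝ (range fun i : {x // x ≠ i0} => (p i -ᵥ p i0 : F)) →ₗ[ℝ] ℝ :=
    b.constr ℝ (fun i : {x // x ≠ i0} => g i - g i0)
  obtain ⟨l, hl⟩ := LinearMap.exists_extend l0
  refine ⟨l, l (p i0) - g i0, fun i => ?_⟩
  by_cases hi : i = i0
  · subst hi; ring
  · have h1 : l (p i - p i0) = g i - g i0 := by
      have h2 : l0 (b ⟨i, hi⟩) = g i - g i0 := by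
        simp only [l0, Basis.constr_basis]
      have h3 : (b ⟨i, hi⟩ : F) = p i - p i0 := by
        simp only [b, Basis.span_apply]
        rfl
      rw [← h2, ← hl]
      simp only [LinearMap.comp_apply, Submodule.subtype_apply, h3]
    rw [map_sub] at h1
    linarith

theorem mem_hull_image_of_weights [Fintype ι] {p : ι → F} {S : Set ι} {w : ι → ℝ}
    (hw0 : ∀ i, 0 ≤ w i) (hw1 : ∑ i, w i = 1) (hS : ∀ i, i ∉ S → w i = 0) :
    ∑ i, w i • p i ∈ convexHull ℝ (p '' S) := by
  classical
  have h1 : ∑ i, w i • p i = ∑ i ∈ Finset.univ.filter (· ∈ S), w i • p i := by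
    rw [Finset.sum_filter]
    apply Finset.sum_congr rfl
    intro i _
    split_ifs with h
    · rfl
    · rw [hS i h, zero_smul]
  have h2 : ∑ i ∈ Finset.univ.filter (· ∈ S), w i = 1 := by
    rw [← hw1, Finset.sum_filter]
    apply Finset.sum_congr rfl
    intro i _
    split_ifs with h
    · rfl
    · rw [hS i h]
  rw [h1]
  refine (convex_convexHull ℝ _).sum_mem (fun i _ => hw0 i) h2 (fun i hi => ?_)
  exact subset_convexHull ℝ _ ⟨i, (Finset.mem_filter.1 hi).2, rfl⟩

theorem affInd_sharp {p : ι → F} (hp : AffineIndependent ℝ p) : Sharp p := by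
  classical
  intro i
  obtain ⟨l, c, hl⟩ := exists_functional hp (fun j => if j = i then 1 else 0)
  refine ⟨l, fun j hj => ?_⟩
  rw [hl, hl, if_neg hj, if_pos rfl]
  linarith

theorem affInd_edgeAt {p : ι → F} (hp : AffineIndependent ℝ p) (i j : ι) :
    EdgeAt p i j := by
  classical
  obtain ⟨l, c, hl⟩ := exists_functional hp (fun m => if m = i ∨ m = j then 1 else 0)
  refine ⟨l, ?_, fun m h1 h2 => ?_⟩
  · rw [hl, hl, if_pos (Or.inl rfl), if_pos (Or.inr rfl)]
  · rw [hl, hl, if_neg (by tauto), if_pos (Or.inl rfl)]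
    linarith

theorem affInd_rep {p : ι → F} (hp : AffineIndependent ℝ p) :
    Rep (⊤ : SimpleGraph ι) p :=
  ⟨affInd_sharp hp, fun i j hij => ⟨fun _ => affInd_edgeAt hp i j, fun _ => hij⟩⟩

/-- Radon: if `p` is affinely dependent, some subset of the indices cannot be cut off by a
linear functional. -/
theorem exists_not_cut {p : ι → F} (hp : ¬ AffineIndependent ℝ p) :
    ∃ I : Set ι, ∀ (l : F →ₗ[ℝ] ℝ) (c : ℝ),
      ¬ ((∀ i ∈ I, c ≤ l (p i)) ∧ (∀ i, i ∉ I → l (p i) < c)) ∧
      ¬ ((∀ i, i ∉ I → c ≤ l (p i)) ∧ (∀ i ∈ I, l (p i) < c)) := by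
  obtain ⟨I, x, hx1, hx2⟩ := Convex.radon_partition hp
  refine ⟨I, fun l c => ⟨?_, ?_⟩⟩
  · rintro ⟨h1, h2⟩
    have ha : x ∈ {y : F | c ≤ l y} := by
      refine convexHull_min ?_ (convex_halfSpace_ge l.isLinear c) hx1
      rintro _ ⟨i, hi, rfl⟩
      exact h1 i hi
    have hb : x ∈ {y : F | l y < c} := by
      refine convexHull_min ?_ (convex_halfSpace_lt l.isLinear c) hx2
      rintro _ ⟨i, hi, rfl⟩
      exact h2 i hi
    have ha' : c ≤ l x := ha
    have hb' : l x < c := hb
    linarith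
  · rintro ⟨h1, h2⟩
    have ha : x ∈ {y : F | c ≤ l y} := by
      refine convexHull_min ?_ (convex_halfSpace_ge l.isLinear c) hx2
      rintro _ ⟨i, hi, rfl⟩
      exact h1 i hi
    have hb : x ∈ {y : F | l y < c} := by
      refine convexHull_min ?_ (convex_halfSpace_lt l.isLinear c) hx1
      rintro _ ⟨i, hi, rfl⟩
      exact h2 i hi
    have ha' : c ≤ l x := ha
    have hb' : l x < c := hb
    linarith

end general

/-! ### Faces of a simplex -/

theorem face_eq_hull {d : ℕ} {P : Set (E N)} (hP : IsPolytope d P) {A : Set (E N)}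
    (hA : IsExposed ℝ P A) :
    A = convexHull ℝ ((Subtype.val : Vert P → E N) '' {x | x.1 ∈ A}) := by
  have : Fintype (Vert P) := hP.finite_vert.fintype
  have hPconv : Convex ℝ P := by
    rw [← hP.eq_hull]; exact convex_convexHull ℝ _
  apply Subset.antisymm
  · intro x hx
    obtain ⟨l, hl⟩ := hA ⟨x, hx⟩
    have hx' := hx
    rw [hl] at hx'
    obtain ⟨hxP, hmax⟩ := hx'
    have hxP' := hxP
    rw [← hP.eq_hull_range, mem_hull_range] at hxP'
    obtain ⟨w, hw0, hw1, rfl⟩ := hxP'
    apply mem_hull_image_of_weights hw0 hw1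
    intro i hi
    have hle : ∀ j : Vert P, l.toLinearMap j.1 ≤ l (∑ i, w i • (i : E N)) := fun j =>
      hmax j.1 (extremePoints_subset j.2)
    refine weights_face (l := l.toLinearMap) (c := l (∑ i, w i • (i : E N))) hle hw0 hw1 rfl i ?_
    by_contra hcon
    apply hi
    change i.1 ∈ A
    rw [hl]
    refine ⟨extremePoints_subset i.2, fun y hy => ?_⟩
    exact (hmax y hy).trans (not_lt.1 hcon)
  · apply convexHull_min _ (hA.convex hPconv)
    rintro _ ⟨x, hx, rfl⟩
    exact hx

theorem simplex_exposed {d : ℕ} {P : Set (E N)} (hP : IsPolytope d P)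
    (hi : AffineIndependent ℝ (Subtype.val : Vert P → E N)) (S : Set (Vert P)) :
    IsExposed ℝ P (convexHull ℝ ((Subtype.val : Vert P → E N) '' S)) := by
  classical
  have : Fintype (Vert P) := hP.finite_vert.fintype
  rintro ⟨x0, hx0⟩
  have hSne : S.Nonempty := by
    by_contra h
    rw [not_nonempty_iff_eq_empty] at h
    rw [h, image_empty, convexHull_empty] at hx0
    exact hx0
  obtain ⟨s0, hs0⟩ := hSne
  obtain ⟨l, c, hl⟩ := exists_functional hi (fun m => if m ∈ S then 1 else 0)
  have hle : ∀ m : Vert P, l m.1 ≤ 1 + c := fun m => by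
    rw [hl]; split_ifs <;> linarith
  have hleP : ∀ y ∈ P, l y ≤ 1 + c := fun y hy => by
    rw [← hP.eq_hull_range] at hy
    exact le_of_mem_hull hle hy
  have hs0P : s0.1 ∈ P := extremePoints_subset s0.2
  have hls0 : l s0.1 = 1 + c := by rw [hl, if_pos hs0]
  have hsub : convexHull ℝ ((Subtype.val : Vert P → E N) '' S) ⊆ P := by
    conv_rhs => rw [← hP.eq_hull_range]
    exact convexHull_mono (image_subset_range _ _)
  refine ⟨toC l, ?_⟩
  ext x
  simp only [mem_ofPred_eq, toC_apply]
  constructor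
  · intro hx
    refine ⟨hsub hx, fun y hy => ?_⟩
    have h1 : x ∈ {y : E N | 1 + c ≤ l y} := by
      refine convexHull_min ?_ (convex_halfSpace_ge l.isLinear (1 + c)) hx
      rintro _ ⟨i, hi, rfl⟩
      change 1 + c ≤ l i.1
      rw [hl, if_pos hi]
    exact (hleP y hy).trans h1
  · rintro ⟨hx, hmax⟩
    have h1 : l x = 1 + c := le_antisymm (hleP x hx) (by rw [← hls0]; exact hmax _ hs0P)
    rw [← hP.eq_hull_range, mem_hull_range] at hx
    obtain ⟨w, hw0, hw1, rfl⟩ := hx
    apply mem_hull_image_of_weights hw0 hw1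
    intro i hi
    refine weights_face hle hw0 hw1 h1 i ?_
    rw [hl, if_neg hi]
    linarith

theorem mem_hull_image_iff {d : ℕ} {P : Set (E N)} (hP : IsPolytope d P) (S : Set (Vert P))
    (x : Vert P) : x.1 ∈ convexHull ℝ ((Subtype.val : Vert P → E N) '' S) ↔ x ∈ S := by
  constructor
  · intro hx
    have hsub : convexHull ℝ ((Subtype.val : Vert P → E N) '' S) ⊆ P := by
      conv_rhs => rw [← hP.eq_hull_range]
      exact convexHull_mono (image_subset_range _ _)
    have h1 : x.1 ∈ (convexHull ℝ ((Subtype.val : Vert P → E N) '' S)).extremePoints ℝ :=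
      inter_extremePoints_subset_extremePoints_of_subset hsub ⟨hx, x.2⟩
    obtain ⟨y, hy, hyx⟩ := extremePoints_convexHull_subset h1
    rwa [← Subtype.ext hyx]
  · intro hx
    exact subset_convexHull ℝ _ ⟨x, hx, rfl⟩

/-- The face lattice of a simplex is the lattice of sets of vertices. -/
noncomputable def simplexFaces {d : ℕ} {P : Set (E N)} (hP : IsPolytope d P)
    (hi : AffineIndependent ℝ (Subtype.val : Vert P → E N)) : Face P ≃o Set (Vert P) where
  toFun A := {x | x.1 ∈ A.1}
  invFun S := ⟨convexHull ℝ ((Subtype.val : Vert P → E N) '' S), simplex_exposed hP hi S⟩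
  left_inv A := Subtype.ext (face_eq_hull hP A.2).symm
  right_inv S := by
    ext x
    exact mem_hull_image_iff hP S x
  map_rel_iff' := by
    intro A B
    constructor
    · intro h
      change A.1 ⊆ B.1
      rw [face_eq_hull hP A.2, face_eq_hull hP B.2]
      exact convexHull_mono (image_mono h)
    · intro h x hx
      exact h hx

theorem mem_simplexFaces {d : ℕ} {P : Set (E N)} (hP : IsPolytope d P)
    (hi : AffineIndependent ℝ (Subtype.val : Vert P → E N)) (A : Face P) (x : Vert P) :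
    x ∈ simplexFaces hP hi A ↔ x.1 ∈ A.1 := Iff.rfl

end Pool.Agent.Lib.MP_1e46c9_co
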