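import Pool.Agent.Lib.MP_1e46c9_co.Simplex

open Set Module

namespace Pool.Agent.Lib.MP_1e46c9_co

variable {ι κ : Type} {N : ℕ}

/-- If a polytope has at most five vertices, pairwise adjacent, its vertices are affinely
independent. -/
theorem affInd_of_complete {d : ℕ} {P : Set (E N)} (hP : IsPolytope d P) [Fintype (Vert P)]
    (hc : Fintype.card (Vert P) ≤ 5) (hG : ∀ i j, i ≠ j → (polyGraph P).Adj i j) :
    AffineIndependent ℝ (Subtype.val : Vert P → E N) := by
  classical
  by_contra hcon
  obtain ⟨I, hI⟩ := exists_not_cut hcon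
  have hrep := hP.rep
  -- a set with at most two elements can be cut off
  have key : ∀ J : Finset (Vert P), J.card ≤ 2 → ∃ (l : E N →ₗ[ℝ] ℝ) (c : ℝ),
      (∀ i ∈ J, c ≤ l i.1) ∧ (∀ i, i ∉ J → l i.1 < c) := by
    intro J hJ
    rcases J.eq_empty_or_nonempty with rfl | ⟨i, hi⟩
    · exact ⟨0, 1, by simp, by simp⟩
    by_cases h1 : ∃ j ∈ J, j ≠ i
    · obtain ⟨j, hj, hji⟩ := h1
      obtain ⟨l, h2, h3⟩ := (hrep.2 i j hji.symm).1 (hG i j hji.symm)
      have hJeq : ∀ m ∈ J, m = i ∨ m = j := by
        intro m hm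
        by_contra hcon
        push Not at hcon
        have : ({i, j, m} : Finset (Vert P)).card ≤ J.card := by
          apply Finset.card_le_card
          intro x hx
          simp only [Finset.mem_insert, Finset.mem_singleton] at hx
          rcases hx with rfl | rfl | rfl <;> assumption
        rw [Finset.card_eq_three.2 ⟨i, j, m, hji.symm, hcon.1.symm, hcon.2.symm, rfl⟩] at this
        omega
      refine ⟨l, l i.1, fun m hm => ?_, fun m hm => ?_⟩
      · rcases hJeq m hm with rfl | rfl
        · exact le_rfl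
        · exact h2.le
      · exact h3 m (fun h => hm (h ▸ hi)) (fun h => hm (h ▸ hj))
    · push Not at h1
      obtain ⟨l, hl⟩ := hrep.1 i
      refine ⟨l, l i.1, fun m hm => ?_, fun m hm => ?_⟩
      · rw [h1 m hm]
      · exact hl m (fun h => hm (h ▸ hi))
  set J : Finset (Vert P) := I.toFinset with hJ
  have hJc : J.card + Jᶜ.card ≤ 5 := by rw [Finset.card_add_card_compl]; exact hc
  rcases le_or_gt J.card 2 with h | h
  · obtain ⟨l, c, h1, h2⟩ := key J h
    refine (hI l c).1 ⟨fun i hi => h1 i (by simpa [hJ] using hi),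
      fun i hi => h2 i (by simpa [hJ] using hi)⟩
  · obtain ⟨l, c, h1, h2⟩ := key Jᶜ (by omega)
    refine (hI l c).2 ⟨fun i hi => h1 i (by simpa [hJ] using hi),
      fun i hi => h2 i (by simpa [hJ] using hi)⟩

theorem dim_of_complete {n d : ℕ} (hn : n ≤ 4) {P : Set (E N)} (hP : IsPolytope d P)
    (e : (⊤ : SimpleGraph (Fin (n + 1))) ≃g polyGraph P) :
    d = n ∧ AffineIndependent ℝ (Subtype.val : Vert P → E N) := by
  have : Fintype (Vert P) := hP.finite_vert.fintype
  have hc : Fintype.card (Vert P) = n + 1 := by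
    rw [← Fintype.card_congr e.toEquiv]; simp
  have hG : ∀ i j, i ≠ j → (polyGraph P).Adj i j := by
    intro i j hij
    have h1 : (⊤ : SimpleGraph (Fin (n + 1))).Adj (e.symm i) (e.symm j) := by
      rw [SimpleGraph.top_adj]
      exact fun h => hij (e.symm.injective h)
    have h2 := e.map_rel_iff'.2 h1
    simpa using h2
  have hai := affInd_of_complete hP (by omega) hG
  refine ⟨?_, hai⟩
  have h1 := hai.finrank_vectorSpan hc
  rw [hP.finrank_range] at h1
  exact h1

/-- An `n`-polytope has at least `n + 1` vertices. -/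
theorem succ_le_card {n : ℕ} {P : Set (E N)} (hP : IsPolytope n P) [Fintype (Vert P)] :
    n + 1 ≤ Fintype.card (Vert P) := by
  have := hP.nonempty_vert
  have h := finrank_vectorSpan_range_add_one_le (k := ℝ) (Subtype.val : Vert P → E N)
  rw [hP.finrank_range] at h
  exact h

/-- An `n`-polytope with `n + 1` vertices has a complete graph. -/
theorem complete_of_card {n : ℕ} {P : Set (E N)} (hP : IsPolytope n P) [Fintype (Vert P)]
    (hc : Fintype.card (Vert P) = n + 1) (i j : Vert P) (hij : i ≠ j) :
    (polyGraph P).Adj i j := by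
  have hai : AffineIndependent ℝ (Subtype.val : Vert P → E N) := by
    rw [affineIndependent_iff_finrank_vectorSpan_eq ℝ _ hc]
    exact hP.finrank_range
  rw [hP.rep.2 i j hij]
  exact affInd_edgeAt hai i j

/-- Simplices of dimension at most four are admissible. -/
theorem admissible_simplex {n : ℕ} (hn : n ≤ 4) {P : Set (E N)} (hP : IsPolytope n P)
    (e0 : (⊤ : SimpleGraph (Fin (n + 1))) ≃g polyGraph P) : Admissible n P := by
  classical
  refine ⟨hP, ?_, ?_, ?_, ?_⟩
  · rintro ⟨d, d', hne, ⟨M, Q, hQ, ⟨e⟩⟩, ⟨M', Q', hQ', ⟨e'⟩⟩⟩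
    exact hne ((dim_of_complete hn hQ (e0.trans e)).1.trans
      (dim_of_complete hn hQ' (e0.trans e')).1.symm)
  · rintro ⟨M, M', Q, Q', hQ, hQ', ⟨e⟩, ⟨e'⟩, hncomb⟩
    apply hncomb
    have h1 := (dim_of_complete hn hQ (e0.trans e)).2
    have h2 := (dim_of_complete hn hQ' (e0.trans e')).2
    let σ : Vert Q ≃ Vert Q' := e.toEquiv.symm.trans e'.toEquiv
    exact ⟨(simplexFaces hQ h1).trans (σ.toOrderIsoSet.trans (simplexFaces hQ' h2).symm)⟩
  · rintro ⟨M, Q, hQ, φ, ψ, hno⟩
    apply hno
    have h1 := (dim_of_complete hn hQ (e0.trans φ)).2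
    let α : Vert Q ≃ Vert Q := ψ.toEquiv.symm.trans φ.toEquiv
    refine ⟨(simplexFaces hQ h1).trans (α.toOrderIsoSet.trans (simplexFaces hQ h1).symm),
      fun x A => ?_⟩
    rw [← mem_simplexFaces hQ h1, ← mem_simplexFaces hQ h1]
    simp only [OrderIso.trans_apply, OrderIso.apply_symm_apply, Equiv.toOrderIsoSet_apply]
    change x ∈ simplexFaces hQ h1 A ↔ α x ∈ α '' (simplexFaces hQ h1 A)
    exact (α.injective.mem_set_image).symm
  · rintro H hH ⟨M, Q, hQ, ⟨e⟩⟩
    apply hH
    have : Fintype (Vert P) := hP.finite_vert.fintype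
    have : Fintype (Vert Q) := hQ.finite_vert.fintype
    have hcP : Fintype.card (Vert P) = n + 1 := by
      rw [← Fintype.card_congr e0.toEquiv]; simp
    have hcH : Fintype.card H.verts = Fintype.card (Vert Q) := Fintype.card_congr e.toEquiv
    have h4 := succ_le_card hQ
    have hle : Fintype.card H.verts ≤ Fintype.card (Vert P) := Fintype.card_subtype_le _
    have hverts : H.verts = Set.univ := by
      rw [← Set.toFinset_inj, Set.toFinset_univ, ← Finset.card_eq_iff_eq_univ, Set.toFinset_card]
      omega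
    have hcQ : Fintype.card (Vert Q) = n + 1 := by omega
    have hcomp := complete_of_card hQ hcQ
    have hadj : ∀ x y : Vert P, x ≠ y → H.Adj x y := by
      intro x y hxy
      have hx : x ∈ H.verts := by rw [hverts]; trivial
      have hy : y ∈ H.verts := by rw [hverts]; trivial
      have h5 : H.coe.Adj ⟨x, hx⟩ ⟨y, hy⟩ := by
        rw [← e.map_rel_iff']
        apply hcomp
        intro h6
        have := e.toEquiv.injective h6
        exact hxy (congrArg Subtype.val this)
      exact h5
    ext x y
    · rw [hverts]; rfl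
    · constructor
      · intro h; exact H.adj_sub h
      · intro h
        have h' : (polyGraph P).Adj x y := by simpa using h
        exact hadj x y h'.ne

/-! ### The chain of standard simplices -/

/-- Standard basis vectors. -/
noncomputable def bv (i : Fin N) : E N := EuclideanSpace.single i (1 : ℝ)

theorem bv_apply (i j : Fin N) : bv i j = if j = i then 1 else 0 := by
  simp [bv]

theorem bv_linInd : LinearIndependent ℝ (fun i : Fin N => bv i) := by
  have h := (EuclideanSpace.basisFun (Fin N) ℝ).toBasis.linearIndependent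
  have hfun : (fun i : Fin N => bv i) = ⇑(EuclideanSpace.basisFun (Fin N) ℝ).toBasis := by
    ext i j
    simp [bv]
  rw [hfun]
  exact h

/-- The first `n + 1` standard basis vectors. -/
noncomputable def tv (n : ℕ) (h : n + 1 ≤ N) (i : Fin (n + 1)) : E N := bv (i.castLE h)

theorem tv_affInd (n : ℕ) (h : n + 1 ≤ N) : AffineIndependent ℝ (tv n h) := by
  have h2 : LinearIndependent ℝ (tv n h) :=
    bv_linInd.comp (fun i : Fin (n + 1) => i.castLE h) (Fin.castLE_injective h)
  exact h2.affineIndependent

/-- The standard `n`-simplex inside `E N`. -/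
noncomputable def simp' (n : ℕ) (h : n + 1 ≤ N) : Set (E N) := convexHull ℝ (range (tv n h))

theorem simp_poly (n : ℕ) (h : n + 1 ≤ N) : IsPolytope n (simp' n h) := by
  apply isPolytope_hull_range
  exact (tv_affInd n h).finrank_vectorSpan (by simp)

theorem simp_iso (n : ℕ) (h : n + 1 ≤ N) :
    Nonempty ((⊤ : SimpleGraph (Fin (n + 1))) ≃g polyGraph (simp' n h)) :=
  (affInd_rep (tv_affInd n h)).iso

/-- If all points of `s` have vanishing coordinate `j`, so have the points of its affine hull. -/
theorem coord_zero {s : Set (E N)} {j : Fin N} (h : ∀ x ∈ s, x j = 0) :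
    ∀ x ∈ affineSpan ℝ s, x j = 0 := by
  intro x hx
  have hle : affineSpan ℝ s ≤
      (LinearMap.ker (EuclideanSpace.proj (𝕜 := ℝ) j : E N →L[ℝ] ℝ).toLinearMap).toAffineSubspace := by
    rw [affineSpan_le]
    intro y hy
    change y j = 0
    exact h y hy
  exact hle hx

theorem simp_pyramid (n : ℕ) (h : n + 1 + 1 ≤ N) :
    IsPyramid (simp' n (by omega : n + 1 ≤ N)) (simp' (n + 1) h) := by
  have hlt : n + 1 < N := by omega
  refine ⟨bv ⟨n + 1, hlt⟩, ?_, ?_⟩
  · intro hmem
    rw [simp', affineSpan_convexHull] at hmem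
    have := coord_zero (j := ⟨n + 1, hlt⟩) ?_ _ hmem
    · rw [bv_apply, if_pos rfl] at this
      exact one_ne_zero this
    · rintro _ ⟨i, rfl⟩
      rw [tv, bv_apply, if_neg]
      intro h
      have := congrArg Fin.val h
      simp at this
      omega
  · have hrange : range (tv (n + 1) h) =
        insert (bv ⟨n + 1, hlt⟩) (range (tv n (by omega : n + 1 ≤ N))) := by
      ext y
      constructor
      · rintro ⟨i, rfl⟩
        induction i using Fin.lastCases with
        | last => left; rfl
        | cast i => right; exact ⟨i, rfl⟩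
      · rintro (rfl | ⟨i, rfl⟩)
        · exact ⟨Fin.last _, rfl⟩
        · exact ⟨i.castSucc, rfl⟩
    rw [simp', hrange]
    apply Subset.antisymm
    · apply convexHull_mono
      exact insert_subset_insert (subset_convexHull ℝ _)
    · apply convexHull_min _ (convex_convexHull ℝ _)
      rintro y (rfl | hy)
      · exact subset_convexHull ℝ _ (mem_insert _ _)
      · exact convexHull_mono (subset_insert _ _) hy

theorem simp_iter (n : ℕ) : ∀ (k : ℕ) (h : n + k + 1 ≤ N),
    IsIteratedPyramid k (simp' n (by omega : n + 1 ≤ N)) (simp' (n + k) h) := by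
  intro k
  induction k with
  | zero => intro h; rfl
  | succ k ih =>
    intro h
    exact ⟨simp' (n + k) (by omega), ih (by omega), simp_pyramid (n + k) h⟩

theorem simp_admissible (n : ℕ) (hn : n ≤ 4) (h : n + 1 ≤ N) : Admissible n (simp' n h) := by
  obtain ⟨e⟩ := simp_iso n h
  exact admissible_simplex hn (simp_poly n h) e

end Pool.Agent.Lib.MP_1e46c9_co
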