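import Pool.Agent.Lib.MP_1e46c9_co.Cone

open Set Module

namespace Pool.Agent.Lib.MP_1e46c9_co

variable {ι κ : Type}

section general
variable {F : Type} [AddCommGroup F] [Module ℝ F]

/-- `l` attains its maximum over the family exactly at `i` and `j` (`i = j` allowed). -/
def MaxAt (p : ι → F) (i j : ι) (l : F →ₗ[ℝ] ℝ) : Prop :=
  l (p i) = l (p j) ∧ ∀ m, m ≠ i → m ≠ j → l (p m) < l (p i)

/-- The point `x` can be added (twice, on both sides of a hyperplane). -/
structure GoodPoint (p : ι → F) (x : F) : Prop where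
  span : x ∈ affineSpan ℝ (range p)
  out : ∃ l : F →ₗ[ℝ] ℝ, ∀ i, l (p i) < l x
  low : ∀ i j l, MaxAt p i j l → ∃ l', MaxAt p i j l' ∧ l' x < l' (p i)

/-- Two new points above and below `x`. -/
def dbl (p : ι → F) (x : F) : Option (Option ι) → F × ℝ
  | some (some i) => (p i, 0)
  | some none => (x, 1)
  | none => (x, -1)

omit [AddCommGroup F] [Module ℝ F] in
@[simp] theorem dbl_ss (p : ι → F) (x : F) (i : ι) : dbl p x (some (some i)) = (p i, 0) := rfl
omit [AddCommGroup F] [Module ℝ F] in
@[simp] theorem dbl_sn (p : ι → F) (x : F) : dbl p x (some none) = (x, 1) := rfl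
omit [AddCommGroup F] [Module ℝ F] in
@[simp] theorem dbl_n (p : ι → F) (x : F) : dbl p x none = (x, -1) := rfl

/-- The functional `(y, t) ↦ l y + c t` on the product. -/
def ext2 (l : F →ₗ[ℝ] ℝ) (c : ℝ) : F × ℝ →ₗ[ℝ] ℝ := l.coprod (c • LinearMap.id)

@[simp] theorem ext2_apply (l : F →ₗ[ℝ] ℝ) (c : ℝ) (y : F) (t : ℝ) :
    ext2 l c (y, t) = l y + c * t := by simp [ext2]

theorem rep_dbl {G : SimpleGraph ι} {p : ι → F} (h : Rep G p) {x : F} (hx : GoodPoint p x) :
    Rep (cone (cone G)) (dbl p x) := by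
  have hv : ∀ i, ∃ l : F →ₗ[ℝ] ℝ, (∀ m, m ≠ i → l (p m) < l (p i)) ∧ l x < l (p i) := by
    intro i
    obtain ⟨l, hl⟩ := h.1 i
    obtain ⟨l', h1, h2⟩ := hx.low i i l ⟨rfl, fun m hm _ => hl m hm⟩
    exact ⟨l', fun m hm => h1.2 m hm hm, h2⟩
  constructor
  · rintro (_ | _ | i)
    · refine ⟨ext2 0 (-1), fun j hj => ?_⟩
      rcases j with _ | _ | j
      · exact absurd rfl hj
      · simp only [dbl_sn, dbl_n, ext2_apply]; norm_num
      · simp only [dbl_ss, dbl_n, ext2_apply]; simp
    · refine ⟨ext2 0 1, fun j hj => ?_⟩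
      rcases j with _ | _ | j
      · simp only [dbl_sn, dbl_n, ext2_apply]; norm_num
      · exact absurd rfl hj
      · simp only [dbl_ss, dbl_sn, ext2_apply]; simp
    · obtain ⟨l, hl, hlx⟩ := hv i
      refine ⟨ext2 l 0, fun j hj => ?_⟩
      rcases j with _ | _ | j
      · simp only [dbl_ss, dbl_n, ext2_apply]; linarith
      · simp only [dbl_ss, dbl_sn, ext2_apply]; linarith
      · simp only [dbl_ss, ext2_apply]
        have := hl j (fun h' => hj (by rw [h']))
        linarith
  · -- adjacency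
    have e1 : EdgeAt (dbl p x) none (some none) := by
      obtain ⟨l, hl⟩ := hx.out
      refine ⟨ext2 l 0, by simp only [dbl_sn, dbl_n, ext2_apply]; ring, fun m hm1 hm2 => ?_⟩
      rcases m with _ | _ | m
      · exact absurd rfl hm1
      · exact absurd rfl hm2
      · simp only [dbl_ss, dbl_n, ext2_apply]
        have := hl m
        linarith
    have e2 : ∀ i, EdgeAt (dbl p x) none (some (some i)) := by
      intro i
      obtain ⟨l, hl, hlx⟩ := hv i
      refine ⟨ext2 l (l x - l (p i)), by simp only [dbl_ss, dbl_n, ext2_apply]; ring,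
        fun m hm1 hm2 => ?_⟩
      rcases m with _ | _ | m
      · exact absurd rfl hm1
      · simp only [dbl_sn, dbl_n, ext2_apply]; linarith
      · simp only [dbl_ss, dbl_n, ext2_apply]
        have := hl m (fun h' => hm2 (by rw [h']))
        linarith
    have e3 : ∀ i, EdgeAt (dbl p x) (some none) (some (some i)) := by
      intro i
      obtain ⟨l, hl, hlx⟩ := hv i
      refine ⟨ext2 l (l (p i) - l x), by simp only [dbl_ss, dbl_sn, ext2_apply]; ring,
        fun m hm1 hm2 => ?_⟩
      rcases m with _ | _ | m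
      · simp only [dbl_sn, dbl_n, ext2_apply]; linarith
      · exact absurd rfl hm1
      · simp only [dbl_ss, dbl_sn, ext2_apply]
        have := hl m (fun h' => hm2 (by rw [h']))
        linarith
    have e4 : ∀ i j, i ≠ j → (G.Adj i j ↔
        EdgeAt (dbl p x) (some (some i)) (some (some j))) := by
      intro i j hij
      rw [h.2 i j hij]
      constructor
      · rintro ⟨l0, h1, h2⟩
        obtain ⟨l, ⟨h3, h4⟩, hlx⟩ := hx.low i j l0 ⟨h1, h2⟩
        refine ⟨ext2 l 0, by simp only [dbl_ss, ext2_apply, h3], fun m hm1 hm2 => ?_⟩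
        rcases m with _ | _ | m
        · simp only [dbl_ss, dbl_n, ext2_apply]; linarith
        · simp only [dbl_ss, dbl_sn, ext2_apply]; linarith
        · simp only [dbl_ss, ext2_apply]
          have := h4 m (fun h' => hm1 (by rw [h'])) (fun h' => hm2 (by rw [h']))
          linarith
      · rintro ⟨l, h1, h2⟩
        refine ⟨l ∘ₗ LinearMap.inl ℝ F ℝ, h1, fun m hm1 hm2 => ?_⟩
        exact h2 (some (some m)) (fun h' => hm1 (Option.some.inj (Option.some.inj h')))
          (fun h' => hm2 (Option.some.inj (Option.some.inj h')))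
    rintro (_ | _ | i) (_ | _ | j) hij
    · exact absurd rfl hij
    · simpa using e1
    · simpa using e2 j
    · simpa using e1.symm
    · exact absurd rfl hij
    · simpa using e3 j
    · simpa using (e2 i).symm
    · simpa using (e3 i).symm
    · have hij' : i ≠ j := fun h' => hij (by rw [h'])
      rw [cone_some_some, cone_some_some, e4 i j hij']

theorem finrank_dbl [FiniteDimensional ℝ F] [Nonempty ι] {p : ι → F} {x : F}
    (hx : x ∈ affineSpan ℝ (range p)) :
    finrank ℝ (vectorSpan ℝ (range (dbl p x))) = finrank ℝ (vectorSpan ℝ (range p)) + 1 := by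
  obtain ⟨i0⟩ := ‹Nonempty ι›
  have hinj : Function.Injective (LinearMap.inl ℝ F ℝ) := LinearMap.inl_injective
  have h0 := finrank_vectorSpan_map (LinearMap.inl ℝ F ℝ) hinj (range p)
  set S : Set (F × ℝ) := LinearMap.inl ℝ F ℝ '' range p with hS
  have hSne : S.Nonempty := ⟨_, mem_image_of_mem _ (mem_range_self i0)⟩
  have hrange : range (dbl p x) = insert ((x, -1) : F × ℝ) (insert ((x, 1) : F × ℝ) S) := by
    ext y
    constructor
    · rintro ⟨(_ | _ | i), rfl⟩
      · left; rfl
      · right; left; rfl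
      · right; right; exact ⟨p i, mem_range_self i, rfl⟩
    · rintro (rfl | rfl | ⟨_, ⟨i, rfl⟩, rfl⟩)
      · exact ⟨none, rfl⟩
      · exact ⟨some none, rfl⟩
      · exact ⟨some (some i), rfl⟩
  -- the point `(x, 0)` lies in the affine span of `S`
  have hx0 : ((x, 0) : F × ℝ) ∈ affineSpan ℝ S := by
    have h1 : affineSpan ℝ S = (affineSpan ℝ (range p)).map (LinearMap.inl ℝ F ℝ).toAffineMap := by
      rw [AffineSubspace.map_span]; rfl
    rw [h1]
    exact ⟨x, hx, rfl⟩
  -- points of the affine span of `S` have last coordinate `0`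
  have hlast : ∀ y ∈ affineSpan ℝ S, y.2 = 0 := by
    intro y hy
    have h1 : affineSpan ℝ S = (affineSpan ℝ (range p)).map (LinearMap.inl ℝ F ℝ).toAffineMap := by
      rw [AffineSubspace.map_span]; rfl
    rw [h1] at hy
    obtain ⟨z, _, rfl⟩ := hy
    rfl
  have h1 : ((x, 1) : F × ℝ) ∉ affineSpan ℝ S := by
    intro h
    have := hlast _ h
    simp at this
  have h2 : ((x, -1) : F × ℝ) ∈ affineSpan ℝ (insert ((x, 1) : F × ℝ) S) := by
    have ha : ((x, 1) : F × ℝ) ∈ affineSpan ℝ (insert ((x, 1) : F × ℝ) S) :=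
      subset_affineSpan ℝ _ (mem_insert _ _)
    have hb : ((x, 0) : F × ℝ) ∈ affineSpan ℝ (insert ((x, 1) : F × ℝ) S) :=
      affineSpan_mono ℝ (subset_insert _ _) hx0
    have := AffineMap.lineMap_mem (2 : ℝ) ha hb
    convert this using 1
    rw [AffineMap.lineMap_apply]
    ext
    · simp
    · simp; norm_num
  rw [hrange, vectorSpan_insert_eq_vectorSpan h2, finrank_insert_of_notMem hSne h1, h0]

end general

end Pool.Agent.Lib.MP_1e46c9_co
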